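import Pool.Agent.J4.H93.PD.PD1

set_option autoImplicit false

/-! Weyl's inequality for polynomials of arbitrary degree at integers with independent random digits. -/

namespace Pool.Agent.J4.H93.PD
open Finset
open Pool.Agent.H807R2.Dav
open Pool.Agent.H373R2.T7
open Pool.Agent.TH872.Sq

lemma nn_neg (x : ℝ) : nn (-x) = nn x := by
  apply le_antisymm
  · refine (nn_le _ (-(round x))).trans (le_of_eq ?_)
    unfold nn
    rw [← abs_neg]
    congr 1
    push_cast
    ring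
  · refine (nn_le _ (-(round (-x)))).trans (le_of_eq ?_)
    unfold nn
    rw [← abs_neg]
    congr 1
    push_cast
    ring

lemma AA_nonneg {b : ℕ} {η : ℝ} {w : ℕ → ℕ → ℝ} (hw : Dig b η w) (γ : ℝ) (hγ : 0 ≤ γ) (L J : ℕ) :
    ∀ (e i : ℕ) (X : ℝ), 0 ≤ AA b γ w L J e i X := by
  intro e
  induction e with
  | zero => intro i X; exact prod_nonneg fun _ _ => gg_nonneg b γ _ hγ
  | succ e ih =>
    intro i X
    rw [AA_succ]
    exact sum_nonneg fun u' _ => mul_nonneg (P_nonneg hw i L u') (sum_nonneg fun u _ => mul_nonneg (P_nonneg hw i L u) (ih _ _))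

lemma AA_le_one {b : ℕ} (hb : 0 < b) {η : ℝ} {w : ℕ → ℕ → ℝ} (hw : Dig b η w) (γ : ℝ) (hγ : 0 ≤ γ) (hγ1 : γ ≤ 1) (L J : ℕ) :
    ∀ (e i : ℕ) (X : ℝ), AA b γ w L J e i X ≤ 1 := by
  intro e
  induction e with
  | zero => intro i X; exact prod_le_one (fun _ _ => gg_nonneg b γ _ hγ) (fun _ _ => gg_le_one b γ _ hγ1)
  | succ e ih =>
    intro i X
    rw [AA_succ]
    calc _ ≤ ∑ u' ∈ range (b ^ L), P b w i L u' * ∑ u ∈ range (b ^ L), P b w i L u * 1 := by
          apply sum_le_sum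
          intro u' _
          apply mul_le_mul_of_nonneg_left _ (P_nonneg hw i L u')
          apply sum_le_sum
          intro u _
          exact mul_le_mul_of_nonneg_left (ih _ _) (P_nonneg hw i L u)
      _ = 1 := by
          simp only [mul_one]
          rw [P_sum hb hw i L]
          simp only [mul_one]
          exact P_sum hb hw i L

/-- the product of the factors which arise from the differencing steps -/
def KK (b L : ℕ) : ℕ → ℕ
  | 0 => 1
  | e + 1 => (e + 2) * b ^ (L * (e + 1)) * KK b L e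

lemma KK_pos (b L : ℕ) (hb : 0 < b) : ∀ e, 0 < KK b L e := by
  intro e
  induction e with
  | zero => exact one_pos
  | succ e ih =>
    unfold KK
    have : 0 < b ^ (L * (e + 1)) := Nat.pow_pos hb
    positivity

lemma KK_le (b L : ℕ) (hb : 0 < b) : ∀ e, KK b L e ≤ (e + 1).factorial * b ^ (L * (e * e)) := by
  intro e
  induction e with
  | zero => simp [KK]
  | succ e ih =>
    calc KK b L (e + 1) = (e + 2) * b ^ (L * (e + 1)) * KK b L e := rfl
      _ ≤ (e + 2) * b ^ (L * (e + 1)) * ((e + 1).factorial * b ^ (L * (e * e))) := Nat.mul_le_mul_left _ ih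
      _ = (e + 1 + 1).factorial * b ^ (L * (e + 1) + L * (e * e)) := by
          rw [Nat.factorial_succ (e + 1), pow_add]
          ring
      _ ≤ (e + 1 + 1).factorial * b ^ (L * ((e + 1) * (e + 1))) := by
          apply Nat.mul_le_mul_left
          apply Nat.pow_le_pow_right hb
          nlinarith [Nat.zero_le (L * e)]

/-- the average over the differences is small if the frequencies are well spaced -/
lemma AA_bound {b : ℕ} (hb : 2 ≤ b) {η : ℝ} {w : ℕ → ℕ → ℝ} (hw : Dig b η w) (γ : ℝ) (hγ : 0 ≤ γ) (hγ1 : γ ≤ 1) (L J : ℕ) :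
    ∀ (e i : ℕ) (X : ℝ), (∀ g : ℕ, 0 < g → g < b ^ ((e + 1) * L) →
      1 / (b : ℝ) ^ J < nn ((b.factorial : ℝ) * ((KK b L (e + 1) : ℝ) * X) * g)) →
      AA b γ w L J (e + 1) i X ≤ ((e : ℝ) + 1) * ((1 - η) ^ L * (1 + 2 * b * γ) ^ J) := by
  have hη1 := eta_le hw
  have hη0 : 0 ≤ 1 - η := by linarith
  have hbr : (0 : ℝ) ≤ b := Nat.cast_nonneg b
  have hS1 : (1 : ℝ) ≤ (1 + 2 * b * γ) ^ J := one_le_pow₀ (by nlinarith [mul_nonneg hbr hγ])
  have hηL : 0 ≤ (1 - η) ^ L := pow_nonneg hη0 L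
  obtain ⟨S, hS⟩ : ∃ S, S = (1 - η) ^ L * (1 + 2 * b * γ) ^ J := ⟨_, rfl⟩
  have hSη : (1 - η) ^ L ≤ S := by rw [hS]; exact le_mul_of_one_le_right hηL hS1
  have hS0 : 0 ≤ S := hηL.trans hSη
  rw [← hS]
  intro e
  induction e with
  | zero =>
    intro i X hX
    rw [AA_succ]
    have key : ∀ u' ∈ range (b ^ L), ∑ u ∈ range (b ^ L), P b w i L u *
        AA b γ w L J 0 (i + L) ((((0 : ℕ) : ℝ) + 2) * (b : ℝ) ^ (L * (0 + 1)) * X * ((u : ℝ) - u')) ≤ S := by
      intro u' _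
      have h1 : ∀ u ∈ range (b ^ L), P b w i L u *
          AA b γ w L J 0 (i + L) ((((0 : ℕ) : ℝ) + 2) * (b : ℝ) ^ (L * (0 + 1)) * X * ((u : ℝ) - u')) ≤
          (1 - η) ^ L * ∏ l ∈ range J, gg b γ ((b : ℝ) ^ l * ((b.factorial : ℝ) * ((((0 : ℕ) : ℝ) + 2) * (b : ℝ) ^ (L * (0 + 1)) * X * ((u : ℝ) - u')))) := by
        intro u _
        exact mul_le_mul_of_nonneg_right (P_le hw i L u) (prod_nonneg fun _ _ => gg_nonneg b γ _ hγ)
      refine (sum_le_sum h1).trans ?_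
      rw [← mul_sum, hS]
      apply mul_le_mul_of_nonneg_left _ hηL
      apply spaced b hb γ hγ hγ1 J (range (b ^ L)) (fun u => (b.factorial : ℝ) * ((((0 : ℕ) : ℝ) + 2) * (b : ℝ) ^ (L * (0 + 1)) * X * ((u : ℝ) - u')))
      intro u hu v hv huv
      rw [mem_range] at hu hv
      have hK : (KK b L (0 + 1) : ℝ) = (((0 : ℕ) : ℝ) + 2) * (b : ℝ) ^ (L * (0 + 1)) := by
        unfold KK KK
        push_cast
        ring
      rw [hK] at hX
      rcases lt_or_gt_of_ne huv with h | h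
      · have h3 := hX (v - u) (by omega) (by rw [zero_add, one_mul]; omega)
        rw [Nat.cast_sub h.le] at h3
        rw [← nn_neg]
        refine lt_of_lt_of_eq h3 ?_
        congr 1
        ring
      · have h3 := hX (u - v) (by omega) (by rw [zero_add, one_mul]; omega)
        rw [Nat.cast_sub h.le] at h3
        refine lt_of_lt_of_eq h3 ?_
        congr 1
        ring
    calc _ ≤ ∑ u' ∈ range (b ^ L), P b w i L u' * S :=
          sum_le_sum fun u' hu' => mul_le_mul_of_nonneg_left (key u' hu') (P_nonneg hw i L u')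
      _ = S := by rw [← sum_mul, P_sum (by omega) hw i L, one_mul]
      _ = _ := by push_cast; ring
  | succ e ih =>
    intro i X hX
    rw [AA_succ]
    have key : ∀ u' ∈ range (b ^ L), ∑ u ∈ range (b ^ L), P b w i L u *
        AA b γ w L J (e + 1) (i + L) ((((e + 1 : ℕ) : ℝ) + 2) * (b : ℝ) ^ (L * (e + 1 + 1)) * X * ((u : ℝ) - u')) ≤
        (((e + 1 : ℕ) : ℝ) + 1) * S := by
      intro u' hu'
      have h1 : ∀ u ∈ range (b ^ L), P b w i L u *
          AA b γ w L J (e + 1) (i + L) ((((e + 1 : ℕ) : ℝ) + 2) * (b : ℝ) ^ (L * (e + 1 + 1)) * X * ((u : ℝ) - u')) ≤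
          (if u = u' then S else 0) + P b w i L u * (((e : ℝ) + 1) * S) := by
        intro u hu
        by_cases huu : u = u'
        · rw [if_pos huu]
          have h2 := AA_le_one (by omega : 0 < b) hw γ hγ hγ1 L J (e + 1) (i + L) ((((e + 1 : ℕ) : ℝ) + 2) * (b : ℝ) ^ (L * (e + 1 + 1)) * X * ((u : ℝ) - u'))
          have h3 := P_le hw i L u
          have h4 := P_nonneg hw i L u
          have h5 : P b w i L u *
              AA b γ w L J (e + 1) (i + L) ((((e + 1 : ℕ) : ℝ) + 2) * (b : ℝ) ^ (L * (e + 1 + 1)) * X * ((u : ℝ) - u')) ≤ P b w i L u :=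
            mul_le_of_le_one_right h4 h2
          have h6 : 0 ≤ P b w i L u * (((e : ℝ) + 1) * S) := by positivity
          linarith
        · rw [if_neg huu, zero_add]
          apply mul_le_mul_of_nonneg_left _ (P_nonneg hw i L u)
          apply ih
          intro g hg0 hg
          rw [mem_range] at hu hu'
          have hK : (KK b L (e + 1 + 1) : ℝ) = (((e + 1 : ℕ) : ℝ) + 2) * (b : ℝ) ^ (L * (e + 1 + 1)) * (KK b L (e + 1) : ℝ) := by
            rw [show KK b L (e + 1 + 1) = (e + 1 + 2) * b ^ (L * (e + 1 + 1)) * KK b L (e + 1) from rfl]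
            push_cast
            ring
          rw [hK] at hX
          have hbL : 0 < b ^ L := Nat.pow_pos (by omega)
          have hsz : ∀ h : ℕ, h < b ^ L → h * g < b ^ ((e + 1 + 1) * L) := by
            intro h hh
            have e2 : b ^ ((e + 1 + 1) * L) = b ^ L * b ^ ((e + 1) * L) := by rw [← pow_add]; congr 1; ring
            rw [e2]
            exact Nat.mul_lt_mul_of_lt_of_le' hh hg.le (by omega)
          rcases lt_or_gt_of_ne huu with h | h
          · have h3 := hX ((u' - u) * g) (Nat.mul_pos (by omega) hg0) (hsz _ (by omega))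
            rw [Nat.cast_mul, Nat.cast_sub h.le] at h3
            rw [← nn_neg]
            refine lt_of_lt_of_eq h3 ?_
            congr 1
            ring
          · have h3 := hX ((u - u') * g) (Nat.mul_pos (by omega) hg0) (hsz _ (by omega))
            rw [Nat.cast_mul, Nat.cast_sub h.le] at h3
            refine lt_of_lt_of_eq h3 ?_
            congr 1
            ring
      refine (sum_le_sum h1).trans ?_
      rw [sum_add_distrib, sum_ite_eq', if_pos hu', ← sum_mul, P_sum (by omega) hw i L, one_mul]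
      push_cast
      linarith
    calc _ ≤ ∑ u' ∈ range (b ^ L), P b w i L u' * ((((e + 1 : ℕ) : ℝ) + 1) * S) :=
          sum_le_sum fun u' hu' => mul_le_mul_of_nonneg_left (key u' hu') (P_nonneg hw i L u')
      _ = _ := by rw [← sum_mul, P_sum (by omega) hw i L, one_mul]

/-- a block of digits -/
lemma block {b : ℕ} (hb : 2 ≤ b) {η : ℝ} (hη : 0 < η) {w : ℕ → ℕ → ℝ} (hw : Dig b η w) (e L J s i r m : ℕ) (hs : 1 ≤ s)
    (θ : ℝ) (f : ℝ → ℝ) (hf : PF (e + 2) θ f) (C : ℝ) (hC : 0 ≤ C)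
    (hC2 : ((e : ℝ) + 1) * ((1 - η) ^ L * (1 + 2 * b * (g0 b η) ^ s) ^ J) ≤ C ^ (2 ^ (e + 1) * s))
    (hx : ∀ g : ℕ, 0 < g → g < b ^ ((e + 1) * L) →
      1 / (b : ℝ) ^ J < nn ((b.factorial : ℝ) * ((KK b L (e + 1) : ℝ) * (((b : ℝ) ^ r) ^ (e + 2) * θ)) * g)) :
    ‖∑ n ∈ range (b ^ (r + (((e + 1) * L + J) + m))), ((P b w i (r + (((e + 1) * L + J) + m)) n : ℝ) : ℂ) * ee (f n)‖ ≤ C := by
  have hb0 : 0 < b := by omega
  have hη1 := eta_le hw
  obtain ⟨hg0, hg1⟩ := g0_bounds b hb η hη hη1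
  obtain ⟨T, hT⟩ : ∃ T, T = (e + 1) * L + J := ⟨_, rfl⟩
  have hmul : ∀ (i : ℕ) (X : ℝ) (f : ℝ → ℝ), PF (e + 1 + 1) X f → _ := multi hb hη hw L J s (e + 1)
  rw [← hT] at hmul ⊢
  rw [ex_split b hb0 w i r (T + m) (fun n => ee (f n))]
  apply norm_avg hb0 hw
  intro x0
  rw [ex_split b hb0 w (i + r) T m (fun y => ee (f ((x0 + b ^ r * y : ℕ) : ℝ)))]
  have e2 : ∑ u ∈ range (b ^ T), ((P b w (i + r) T u : ℝ) : ℂ) *
      ∑ v ∈ range (b ^ m), ((P b w (i + r + T) m v : ℝ) : ℂ) * ee (f ((x0 + b ^ r * (u + b ^ T * v) : ℕ) : ℝ)) =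
      ∑ v ∈ range (b ^ m), ((P b w (i + r + T) m v : ℝ) : ℂ) *
        ∑ u ∈ range (b ^ T), ((P b w (i + r) T u : ℝ) : ℂ) * ee (f ((x0 + b ^ r * (u + b ^ T * v) : ℕ) : ℝ)) := by
    simp only [mul_sum]
    rw [sum_comm]
    apply sum_congr rfl
    intro v _
    apply sum_congr rfl
    intro u _
    ring
  rw [e2]
  apply norm_avg hb0 hw
  intro v
  have h1 := hf.comp ((x0 : ℝ) + (b : ℝ) ^ r * ((b : ℝ) ^ T * v)) ((b : ℝ) ^ r)
  have h2 := hmul (i + r) _ _ h1
  have h3 := AA_bound hb hw ((g0 b η) ^ s) (pow_nonneg hg0 _) (pow_le_one₀ hg0 hg1.le) L J e (i + r) (((b : ℝ) ^ r) ^ (e + 2) * θ) hx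
  have h4 : ‖∑ u ∈ range (b ^ T), ((P b w (i + r) T u : ℝ) : ℂ) * ee (f ((x0 + b ^ r * (u + b ^ T * v) : ℕ) : ℝ))‖ ^ (2 ^ (e + 1) * s) ≤
      C ^ (2 ^ (e + 1) * s) := by
    refine le_trans (le_of_eq ?_) (h2.trans (h3.trans hC2))
    congr 2
    apply sum_congr rfl
    intro u _
    congr 3
    push_cast
    ring
  have hne : 2 ^ (e + 1) * s ≠ 0 := by positivity
  exact le_of_pow_le_pow_left₀ hne hC h4

/-- **Weyl's inequality** for polynomials of degree `e + 2` at integers with independent random digits, at the scale `L` -/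
theorem weyl_deg (b : ℕ) (hb : 2 ≤ b) (η : ℝ) (hη : 0 < η) (hη1 : η ≤ 1) (e : ℕ) : ∃ s f c₁ c₂ : ℕ, 1 ≤ s ∧ 1 ≤ f ∧ ∀ k L : ℕ, 2 ≤ L →
    4 * (e + 2) * L ≤ k → ∀ (w : ℕ → ℕ → ℝ), Dig b η w → ∀ (i : ℕ) (θ : ℝ) (F : ℝ → ℝ), PF (e + 2) θ F →
    ‖∑ n ∈ range (b ^ k), ((P b w i k n : ℝ) : ℂ) * ee (F n)‖ ^ (2 ^ (e + 1) * s) ≤ ((e : ℝ) + 1) * (1 - η / 2) ^ L ∨
    ∃ Q : ℕ, ∃ a : ℤ, 1 ≤ Q ∧ Q ≤ f * b ^ (c₁ * L) ∧ |θ - a / Q| * (b : ℝ) ^ ((e + 2) * k) ≤ (b : ℝ) ^ (c₂ * L) := by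
  have hb2 : (2 : ℝ) ≤ b := by exact_mod_cast hb
  have hb0 : (0 : ℝ) < b := by linarith
  obtain ⟨hg0, hg1⟩ := g0_bounds b hb η hη hη1
  obtain ⟨d, hd⟩ : ∃ d, d = e + 2 := ⟨_, rfl⟩
  -- the choice of `ε`
  obtain ⟨ε, hε⟩ : ∃ ε : ℝ, ε = η / (12 * d) := ⟨_, rfl⟩
  have hd2 : (2 : ℝ) ≤ d := by rw [hd]; push_cast; linarith [Nat.cast_nonneg (α := ℝ) e]
  have hε0 : 0 < ε := by rw [hε]; positivity
  have hτ : (1 - η) * (1 + ε) ^ (3 * d) ≤ 1 - η / 2 := by
    have h1 : (1 + ε) ^ (3 * d) ≤ Real.exp (η / 4) := by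
      calc (1 + ε) ^ (3 * d) ≤ (Real.exp ε) ^ (3 * d) := by
            apply pow_le_pow_left₀ (by linarith)
            linarith [Real.add_one_le_exp ε]
        _ = Real.exp (η / 4) := by
            rw [← Real.exp_nat_mul]
            congr 1
            rw [hε]
            push_cast
            field_simp
            ring
    have h2 : Real.exp (η / 4) ≤ 1 + η / 2 := by
      have h3 := Real.exp_bound_div_one_sub_of_interval (show (0 : ℝ) ≤ η / 4 by linarith) (by linarith : η / 4 < 1)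
      refine h3.trans ?_
      rw [div_le_iff₀ (by linarith)]
      nlinarith
    have h4 : (1 + ε) ^ (3 * d) ≤ 1 + η / 2 := h1.trans h2
    calc (1 - η) * (1 + ε) ^ (3 * d) ≤ (1 - η) * (1 + η / 2) := mul_le_mul_of_nonneg_left h4 (by linarith)
      _ ≤ 1 - η / 2 := by nlinarith
  obtain ⟨s₀, hs₀⟩ := exists_pow_lt_of_lt_one (show 0 < ε / (2 * b) by positivity) hg1
  obtain ⟨s, hs⟩ : ∃ s, s = s₀ + 1 := ⟨_, rfl⟩
  have hγs : 2 * b * (g0 b η) ^ s ≤ ε := by
    have h1 : (g0 b η) ^ s ≤ ε / (2 * b) := by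
      rw [hs]
      exact (pow_le_pow_of_le_one hg0 hg1.le (by omega)).trans hs₀.le
    calc 2 * b * (g0 b η) ^ s ≤ 2 * b * (ε / (2 * b)) := mul_le_mul_of_nonneg_left h1 (by positivity)
      _ = ε := by field_simp
  have hγ0 : 0 ≤ (g0 b η) ^ s := pow_nonneg hg0 s
  have hτ0 : 0 ≤ 1 - η / 2 := by linarith
  have hf1 : 1 ≤ b.factorial * d.factorial := Nat.mul_pos b.factorial_pos d.factorial_pos
  refine ⟨s, b.factorial * d.factorial, d * d + d, d * (4 * d + 1), by omega, hf1, fun k L hL2 hLk w hw i θ F hF => ?_⟩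
  rw [← hd] at hLk
  obtain ⟨J', hJ'⟩ : ∃ J', J' = 2 * L + 2 := ⟨_, rfl⟩
  obtain ⟨J, hJ⟩ : ∃ J, J = d * J' := ⟨_, rfl⟩
  obtain ⟨T, hT⟩ : ∃ T, T = (e + 1) * L + J := ⟨_, rfl⟩
  have hJ3 : J ≤ 3 * d * L := by
    rw [hJ, hJ']
    have : 2 * L + 2 ≤ 3 * L := by omega
    calc d * (2 * L + 2) ≤ d * (3 * L) := Nat.mul_le_mul_left _ this
      _ = _ := by ring
  have hT4 : T ≤ 4 * d * L := by
    have h1 : (e + 1) * L ≤ d * L := Nat.mul_le_mul_right _ (by omega)
    calc T = (e + 1) * L + J := hT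
      _ ≤ d * L + 3 * d * L := Nat.add_le_add h1 hJ3
      _ = _ := by ring
  have hTk : T ≤ k := hT4.trans hLk
  have hS : (1 - η) ^ L * (1 + 2 * b * (g0 b η) ^ s) ^ J ≤ (1 - η / 2) ^ L := by
    calc (1 - η) ^ L * (1 + 2 * b * (g0 b η) ^ s) ^ J ≤ (1 - η) ^ L * (1 + ε) ^ (3 * d * L) := by
          apply mul_le_mul_of_nonneg_left _ (pow_nonneg (by linarith) _)
          calc (1 + 2 * b * (g0 b η) ^ s) ^ J ≤ (1 + ε) ^ J := by
                apply pow_le_pow_left₀ (by positivity)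
                linarith
            _ ≤ _ := pow_le_pow_right₀ (by linarith) hJ3
      _ = ((1 - η) * (1 + ε) ^ (3 * d)) ^ L := by rw [mul_pow, ← pow_mul]
      _ ≤ (1 - η / 2) ^ L := pow_le_pow_left₀ (mul_nonneg (by linarith) (by positivity)) hτ L
  have hKpos := KK_pos b L (by omega) (e + 1)
  obtain ⟨D, hD⟩ : ∃ D : ℕ, D = b.factorial * KK b L (e + 1) := ⟨_, rfl⟩
  have hD1 : 1 ≤ D := by rw [hD]; exact Nat.mul_pos b.factorial_pos hKpos
  have hDr : (1 : ℝ) ≤ D := by exact_mod_cast hD1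
  have hBr : ((b ^ d : ℕ) : ℝ) = (b : ℝ) ^ d := by push_cast; rfl
  by_cases hcase : ∀ l, 0 ≤ l → l ≤ k - T → ∃ g : ℕ, 0 < g ∧ g < (b ^ d) ^ L ∧
      nn ((D : ℝ) * θ * ((b ^ d : ℕ) : ℝ) ^ l * g) ≤ 1 / ((b ^ d : ℕ) : ℝ) ^ J'
  · right
    have hB2 : 2 ≤ b ^ d := by
      calc 2 ≤ b := hb
        _ = b ^ 1 := (pow_one b).symm
        _ ≤ b ^ d := Nat.pow_le_pow_right (by omega) (by omega)
    obtain ⟨Q, a, hQ1, hQ2, hQ3⟩ := dichotomy (b ^ d) L J' hB2 (by omega) 0 (k - T) (Nat.zero_le _) _ hcase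
    refine ⟨D * Q, a, Nat.mul_pos hD1 hQ1, ?_, ?_⟩
    · have h1 := KK_le b L (by omega) (e + 1)
      have h2 : e + 1 + 1 = d := by omega
      rw [h2] at h1
      calc D * Q ≤ (b.factorial * (d.factorial * b ^ (L * ((e + 1) * (e + 1))))) * (b ^ d) ^ (L + 0) := by
            rw [hD]
            exact Nat.mul_le_mul (Nat.mul_le_mul_left _ h1) hQ2
        _ = b.factorial * d.factorial * (b ^ (L * ((e + 1) * (e + 1)) + d * L)) := by
            rw [add_zero, pow_add, ← pow_mul]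
            ring
        _ ≤ b.factorial * d.factorial * b ^ ((d * d + d) * L) := by
            apply Nat.mul_le_mul_left
            apply Nat.pow_le_pow_right (by omega)
            have : (e + 1) * (e + 1) ≤ d * d := Nat.mul_le_mul (by omega) (by omega)
            nlinarith
    · have h1 : |θ - a / ((D * Q : ℕ) : ℝ)| ≤ |(D : ℝ) * θ - a / Q| := by
        have hQr : (0 : ℝ) < Q := by exact_mod_cast hQ1
        have h2 : (D : ℝ) * θ - a / Q = D * (θ - a / ((D * Q : ℕ) : ℝ)) := by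
          push_cast
          field_simp
        rw [h2, abs_mul, abs_of_pos (by linarith : (0 : ℝ) < D)]
        have := abs_nonneg (θ - a / ((D * Q : ℕ) : ℝ))
        nlinarith
      have h3 : |(D : ℝ) * θ - a / Q| * (b : ℝ) ^ ((e + 2) * k) ≤ (b : ℝ) ^ (d * (4 * d + 1) * L) := by
        rw [hBr] at hQ3
        have h4 : (b : ℝ) ^ ((e + 2) * k) = ((b : ℝ) ^ d) ^ (J' + (k - T)) * ((b : ℝ) ^ d) ^ (T - J') := by
          rw [← pow_add, ← pow_mul, ← hd]
          congr 2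
          have : J' ≤ T := by
            rw [hT, hJ]
            have : 1 * J' ≤ d * J' := Nat.mul_le_mul_right _ (by omega)
            omega
          omega
        rw [h4, ← mul_assoc]
        calc |(D : ℝ) * θ - a / Q| * ((b : ℝ) ^ d) ^ (J' + (k - T)) * ((b : ℝ) ^ d) ^ (T - J') ≤
            ((b : ℝ) ^ d) ^ L * ((b : ℝ) ^ d) ^ (T - J') := mul_le_mul_of_nonneg_right hQ3 (by positivity)
          _ = (b : ℝ) ^ (d * (L + (T - J'))) := by rw [← pow_add, ← pow_mul]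
          _ ≤ _ := by
              apply pow_le_pow_right₀ (by linarith)
              rw [mul_assoc]
              apply Nat.mul_le_mul_left
              have : L + (T - J') ≤ L + 4 * d * L := by omega
              calc L + (T - J') ≤ L + 4 * d * L := this
                _ = _ := by ring
      exact (mul_le_mul_of_nonneg_right h1 (by positivity)).trans h3
  · left
    push Not at hcase
    obtain ⟨r, _, hr, hl⟩ := hcase
    obtain ⟨m, hm⟩ : ∃ m, m = k - T - r := ⟨_, rfl⟩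
    have hk2 : r + (((e + 1) * L + J) + m) = k := by omega
    have hne : 2 ^ (e + 1) * s ≠ 0 := by
      have : s ≠ 0 := by omega
      positivity
    obtain ⟨Y, hY⟩ : ∃ Y : ℝ, Y = ((e : ℝ) + 1) * (1 - η / 2) ^ L := ⟨_, rfl⟩
    have hY0 : 0 ≤ Y := by rw [hY]; positivity
    have hroot : (Y ^ ((((2 ^ (e + 1) * s : ℕ) : ℝ))⁻¹)) ^ (2 ^ (e + 1) * s) = Y :=
      Real.rpow_inv_natCast_pow hY0 hne
    have hmain := block hb hη hw e L J s i r m (by omega) θ F hF (Y ^ ((((2 ^ (e + 1) * s : ℕ) : ℝ))⁻¹))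
      (Real.rpow_nonneg hY0 _) (by
      rw [hroot, hY]
      exact mul_le_mul_of_nonneg_left hS (by positivity)) (by
      intro g hg0 hgL
      have h1 := hl g hg0 (by
        refine hgL.trans_le ?_
        rw [← pow_mul]
        exact Nat.pow_le_pow_right (by omega) (Nat.mul_le_mul_right _ (by omega)))
      rw [hBr] at h1
      have h2 : 1 / (b : ℝ) ^ J = 1 / ((b : ℝ) ^ d) ^ J' := by rw [hJ, pow_mul]
      rw [h2]
      refine lt_of_lt_of_eq h1 ?_
      congr 1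
      rw [hD, ← pow_mul, ← pow_mul, ← hd, mul_comm r d]
      push_cast
      ring)
    rw [hk2] at hmain
    rw [← hY]
    exact (pow_le_pow_left₀ (norm_nonneg _) hmain _).trans (le_of_eq hroot)

end Pool.Agent.J4.H93.PD
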