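import Pool.Agent.TH872.Sq.W4

set_option autoImplicit false

/-! Weyl's inequality for polynomials of arbitrary degree at integers with independent random digits:
the differencing step. -/

namespace Pool.Agent.J4.H93.PD
open Finset
open Pool.Agent.H807R2.Dav
open Pool.Agent.H373R2.T7
open Pool.Agent.TH872.Sq

/-- `f` is a polynomial function of degree at most `d`, and `x` is the coefficient of `y ^ d` -/
def PF (d : ℕ) (x : ℝ) (f : ℝ → ℝ) : Prop := ∃ a : ℕ → ℝ, a d = x ∧ ∀ y, f y = ∑ j ∈ range (d + 1), a j * y ^ j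

lemma expand (a : ℕ → ℝ) (n : ℕ) (u B y : ℝ) :
    ∑ j ∈ range n, a j * (u + B * y) ^ j =
      ∑ m ∈ range n, (∑ j ∈ range n, a j * (B ^ m * u ^ (j - m) * (j.choose m))) * y ^ m := by
  have h1 : ∀ j ∈ range n, a j * (u + B * y) ^ j = ∑ m ∈ range n, a j * (B ^ m * u ^ (j - m) * (j.choose m)) * y ^ m := by
    intro j hj
    rw [mem_range] at hj
    have h2 : a j * (u + B * y) ^ j = ∑ m ∈ range (j + 1), a j * (B ^ m * u ^ (j - m) * (j.choose m)) * y ^ m := by
      rw [add_comm u, add_pow, mul_sum]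
      apply sum_congr rfl
      intro m _
      rw [mul_pow]
      ring
    rw [h2]
    apply sum_subset
    · intro m hm
      rw [mem_range] at hm ⊢
      omega
    · intro m _ hm
      rw [mem_range, not_lt] at hm
      rw [Nat.choose_eq_zero_of_lt (by omega : j < m)]
      simp
  rw [sum_congr rfl h1, sum_comm]
  apply sum_congr rfl
  intro m _
  rw [sum_mul]

lemma PF.comp {d : ℕ} {x : ℝ} {f : ℝ → ℝ} (h : PF d x f) (u B : ℝ) : PF d (B ^ d * x) (fun y => f (u + B * y)) := by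
  obtain ⟨a, ha, hf⟩ := h
  refine ⟨fun m => ∑ j ∈ range (d + 1), a j * (B ^ m * u ^ (j - m) * (j.choose m)), ?_, fun y => ?_⟩
  · show ∑ j ∈ range (d + 1), a j * (B ^ d * u ^ (j - d) * (j.choose d)) = _
    rw [sum_eq_single d]
    · rw [Nat.sub_self, pow_zero, Nat.choose_self, ha]
      push_cast
      ring
    · intro j hj hjd
      rw [mem_range] at hj
      rw [Nat.choose_eq_zero_of_lt (by omega : j < d)]
      simp
    · intro h
      simp at h
  · show f (u + B * y) = _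
    rw [hf, expand]

lemma PF.diff {d : ℕ} {x : ℝ} {f : ℝ → ℝ} (h : PF (d + 1) x f) (u u' B : ℝ) :
    PF d (((d : ℝ) + 1) * B ^ d * x * (u - u')) (fun y => f (u + B * y) - f (u' + B * y)) := by
  obtain ⟨a, ha, hf⟩ := h
  have key : ∀ v : ℝ, ∑ j ∈ range (d + 1 + 1), a j * (B ^ d * v ^ (j - d) * (j.choose d)) = a d * B ^ d + x * (B ^ d * v * (d + 1)) := by
    intro v
    rw [sum_range_succ, sum_range_succ, sum_eq_zero]
    · rw [Nat.sub_self, Nat.choose_self, Nat.add_sub_cancel_left, ha, Nat.choose_succ_self_right]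
      push_cast
      ring
    · intro j hj
      rw [mem_range] at hj
      rw [Nat.choose_eq_zero_of_lt hj]
      simp
  have top : ∀ v : ℝ, ∑ j ∈ range (d + 1 + 1), a j * (B ^ (d + 1) * v ^ (j - (d + 1)) * (j.choose (d + 1))) = a (d + 1) * B ^ (d + 1) := by
    intro v
    rw [sum_range_succ, sum_eq_zero]
    · rw [Nat.sub_self, Nat.choose_self]
      push_cast
      ring
    · intro j hj
      rw [mem_range] at hj
      rw [Nat.choose_eq_zero_of_lt hj]
      simp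
  refine ⟨fun m => (∑ j ∈ range (d + 1 + 1), a j * (B ^ m * u ^ (j - m) * (j.choose m))) -
    ∑ j ∈ range (d + 1 + 1), a j * (B ^ m * u' ^ (j - m) * (j.choose m)), ?_, fun y => ?_⟩
  · show (∑ j ∈ range (d + 1 + 1), a j * (B ^ d * u ^ (j - d) * (j.choose d))) -
      ∑ j ∈ range (d + 1 + 1), a j * (B ^ d * u' ^ (j - d) * (j.choose d)) = _
    rw [key, key]
    ring
  · show f (u + B * y) - f (u' + B * y) = ∑ m ∈ range (d + 1), ((∑ j ∈ range (d + 1 + 1), a j * (B ^ m * u ^ (j - m) * (j.choose m))) -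
      ∑ j ∈ range (d + 1 + 1), a j * (B ^ m * u' ^ (j - m) * (j.choose m))) * y ^ m
    rw [hf, hf, expand, expand]
    obtain ⟨c, hc⟩ : ∃ c : ℝ → ℕ → ℝ, ∀ v m, c v m = ∑ j ∈ range (d + 1 + 1), a j * (B ^ m * v ^ (j - m) * (j.choose m)) := ⟨_, fun _ _ => rfl⟩
    have e1 : c u (d + 1) = c u' (d + 1) := by rw [hc, hc, top, top]
    simp only [← hc]
    rw [sum_range_succ _ (d + 1), sum_range_succ _ (d + 1), e1]
    simp only [sub_mul, sum_sub_distrib]
    ring

/-- the differencing step -/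
lemma cauchy {b : ℕ} (hb : 0 < b) {η : ℝ} {w : ℕ → ℕ → ℝ} (hw : Dig b η w) (i L i' T m : ℕ) (F : ℕ → ℕ → ℝ) :
    ‖∑ u ∈ range (b ^ L), ((P b w i L u : ℝ) : ℂ) * ∑ v ∈ range (b ^ T), ((P b w i' T v : ℝ) : ℂ) * ee (F u v)‖ ^ (2 * m) ≤
      ∑ u' ∈ range (b ^ L), P b w i L u' * ∑ u ∈ range (b ^ L), P b w i L u *
        ‖∑ v ∈ range (b ^ T), ((P b w i' T v : ℝ) : ℂ) * ee (F u v - F u' v)‖ ^ m := by
  have hPi := P_nonneg hw i L
  have hPj := P_nonneg hw i' T
  obtain ⟨φ, hφ⟩ : ∃ φ : ℕ → ℕ → ℝ, ∀ u u', φ u u' = ‖∑ v ∈ range (b ^ T), ((P b w i' T v : ℝ) : ℂ) * ee (F u v - F u' v)‖ := ⟨_, fun _ _ => rfl⟩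
  have hφ0 : ∀ u u', 0 ≤ φ u u' := fun u u' => by rw [hφ]; exact norm_nonneg _
  have h1 : ‖∑ u ∈ range (b ^ L), ((P b w i L u : ℝ) : ℂ) * ∑ v ∈ range (b ^ T), ((P b w i' T v : ℝ) : ℂ) * ee (F u v)‖ ^ 2 ≤
      ∑ u' ∈ range (b ^ L), P b w i L u' * ∑ u ∈ range (b ^ L), P b w i L u * φ u u' := by
    have e1 : ∑ u ∈ range (b ^ L), ((P b w i L u : ℝ) : ℂ) * ∑ v ∈ range (b ^ T), ((P b w i' T v : ℝ) : ℂ) * ee (F u v) =
        ∑ v ∈ range (b ^ T), ((P b w i' T v : ℝ) : ℂ) * ∑ u ∈ range (b ^ L), ((P b w i L u : ℝ) : ℂ) * ee (F u v) := by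
      simp only [mul_sum]
      rw [sum_comm]
      apply sum_congr rfl
      intro v _
      apply sum_congr rfl
      intro u _
      ring
    have e2 : ‖∑ v ∈ range (b ^ T), ((P b w i' T v : ℝ) : ℂ) * ∑ u ∈ range (b ^ L), ((P b w i L u : ℝ) : ℂ) * ee (F u v)‖ ≤
        ∑ v ∈ range (b ^ T), P b w i' T v * ‖∑ u ∈ range (b ^ L), ((P b w i L u : ℝ) : ℂ) * ee (F u v)‖ := by
      refine (norm_sum_le _ _).trans (le_of_eq ?_)
      apply sum_congr rfl
      intro v _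
      rw [norm_mul, Complex.norm_real, Real.norm_of_nonneg (hPj v)]
    have e3 : (∑ v ∈ range (b ^ T), P b w i' T v * ‖∑ u ∈ range (b ^ L), ((P b w i L u : ℝ) : ℂ) * ee (F u v)‖) ^ 2 ≤
        ∑ v ∈ range (b ^ T), P b w i' T v * ‖∑ u ∈ range (b ^ L), ((P b w i L u : ℝ) : ℂ) * ee (F u v)‖ ^ 2 :=
      Real.pow_arith_mean_le_arith_mean_pow _ _ _ (fun v _ => hPj v) (P_sum hb hw i' T) (fun v _ => norm_nonneg _) 2
    have e4 : ((∑ v ∈ range (b ^ T), P b w i' T v * ‖∑ u ∈ range (b ^ L), ((P b w i L u : ℝ) : ℂ) * ee (F u v)‖ ^ 2 : ℝ) : ℂ) =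
        ∑ u' ∈ range (b ^ L), ∑ u ∈ range (b ^ L), ((P b w i L u' : ℝ) : ℂ) * ((P b w i L u : ℝ) : ℂ) *
          ∑ v ∈ range (b ^ T), ((P b w i' T v : ℝ) : ℂ) * ee (F u v - F u' v) := by
      push_cast
      have f1 : ∀ v : ℕ, ((‖∑ u ∈ range (b ^ L), ((P b w i L u : ℝ) : ℂ) * ee (F u v)‖ : ℂ)) ^ 2 =
          ∑ u' ∈ range (b ^ L), ∑ u ∈ range (b ^ L), ((P b w i L u' : ℝ) : ℂ) * ((P b w i L u : ℝ) : ℂ) * ee (F u v - F u' v) := by
        intro v
        rw [← Complex.mul_conj', map_sum, sum_mul_sum, sum_comm]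
        apply sum_congr rfl
        intro u' _
        apply sum_congr rfl
        intro u _
        rw [map_mul, Complex.conj_ofReal, Pool.Agent.H373R2.T7.conj_ee]
        have f2 : ee (F u v) * ee (-(F u' v)) = ee (F u v - F u' v) := by
          rw [← ee_add]
          congr 1
        calc ((P b w i L u : ℝ) : ℂ) * ee (F u v) * (((P b w i L u' : ℝ) : ℂ) * ee (-(F u' v))) =
            ((P b w i L u' : ℝ) : ℂ) * ((P b w i L u : ℝ) : ℂ) * (ee (F u v) * ee (-(F u' v))) := by ring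
          _ = _ := by rw [f2]
      simp only [f1, mul_sum]
      rw [sum_comm]
      apply sum_congr rfl
      intro u' _
      rw [sum_comm]
      apply sum_congr rfl
      intro u _
      apply sum_congr rfl
      intro v _
      ring
    have hnn : 0 ≤ ∑ v ∈ range (b ^ T), P b w i' T v * ‖∑ u ∈ range (b ^ L), ((P b w i L u : ℝ) : ℂ) * ee (F u v)‖ ^ 2 :=
      sum_nonneg fun v _ => mul_nonneg (hPj v) (sq_nonneg _)
    rw [e1]
    refine (pow_le_pow_left₀ (norm_nonneg _) e2 2).trans (e3.trans ?_)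
    rw [← Real.norm_of_nonneg hnn, ← Complex.norm_real, e4]
    refine (norm_sum_le _ _).trans ?_
    apply sum_le_sum
    intro u' _
    refine (norm_sum_le _ _).trans (le_of_eq ?_)
    rw [mul_sum]
    apply sum_congr rfl
    intro u _
    rw [norm_mul, norm_mul, Complex.norm_real, Complex.norm_real, Real.norm_of_nonneg (hPi u),
      Real.norm_of_nonneg (hPi u'), ← hφ]
    ring
  simp only [← hφ]
  rw [pow_mul]
  refine (pow_le_pow_left₀ (sq_nonneg _) h1 m).trans ?_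
  refine (Real.pow_arith_mean_le_arith_mean_pow _ _ _ (fun u _ => hPi u) (P_sum hb hw i L) (fun u _ =>
    sum_nonneg fun v _ => mul_nonneg (hPi v) (hφ0 _ _)) m).trans ?_
  apply sum_le_sum
  intro u' _
  apply mul_le_mul_of_nonneg_left _ (hPi u')
  exact Real.pow_arith_mean_le_arith_mean_pow _ _ _ (fun u _ => hPi u) (P_sum hb hw i L) (fun u _ => hφ0 _ _) m

/-- the average over the differences -/
noncomputable def AA (b : ℕ) (γ : ℝ) (w : ℕ → ℕ → ℝ) (L J : ℕ) : ℕ → ℕ → ℝ → ℝ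
  | 0, _, X => ∏ l ∈ range J, gg b γ ((b : ℝ) ^ l * ((b.factorial : ℝ) * X))
  | e + 1, i, X => ∑ u' ∈ range (b ^ L), P b w i L u' * ∑ u ∈ range (b ^ L), P b w i L u *
      AA b γ w L J e (i + L) (((e : ℝ) + 2) * (b : ℝ) ^ (L * (e + 1)) * X * ((u : ℝ) - u'))

lemma AA_succ (b : ℕ) (γ : ℝ) (w : ℕ → ℕ → ℝ) (L J e i : ℕ) (X : ℝ) :
    AA b γ w L J (e + 1) i X = ∑ u' ∈ range (b ^ L), P b w i L u' * ∑ u ∈ range (b ^ L), P b w i L u *
      AA b γ w L J e (i + L) (((e : ℝ) + 2) * (b : ℝ) ^ (L * (e + 1)) * X * ((u : ℝ) - u')) := rfl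

/-- the exponential sum is bounded by the average over the differences -/
lemma multi {b : ℕ} (hb : 2 ≤ b) {η : ℝ} (hη : 0 < η) {w : ℕ → ℕ → ℝ} (hw : Dig b η w) (L J s : ℕ) :
    ∀ (e i : ℕ) (X : ℝ) (f : ℝ → ℝ), PF (e + 1) X f →
      ‖∑ y ∈ range (b ^ (e * L + J)), ((P b w i (e * L + J) y : ℝ) : ℂ) * ee (f y)‖ ^ (2 ^ e * s) ≤
        AA b ((g0 b η) ^ s) w L J e i X := by
  intro e
  induction e with
  | zero =>
    intro i X f hf
    obtain ⟨a, ha, hf⟩ := hf
    rw [Nat.zero_mul, Nat.zero_add, pow_zero, one_mul]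
    have h1 : ∀ y : ℕ, ee (f y) = ee (a 0) * ee ((y : ℝ) * X) := by
      intro y
      rw [← ee_add, hf, sum_range_succ, sum_range_one, ← ha]
      congr 1
      ring
    simp only [h1]
    have h2 : ∑ y ∈ range (b ^ J), ((P b w i J y : ℝ) : ℂ) * (ee (a 0) * ee ((y : ℝ) * X)) =
        ee (a 0) * ∑ y ∈ range (b ^ J), ((P b w i J y : ℝ) : ℂ) * ee ((y : ℝ) * X) := by
      rw [mul_sum]
      apply sum_congr rfl
      intro y _
      ring
    rw [h2, norm_mul, norm_ee, one_mul]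
    refine (pow_le_pow_left₀ (norm_nonneg _) (char_bound hb hη hw i J _) s).trans (le_of_eq ?_)
    unfold AA
    rw [← prod_pow]
    apply prod_congr rfl
    intro j _
    rw [gg_pow]
  | succ e ih =>
    intro i X f hf
    have e1 : (e + 1) * L + J = L + (e * L + J) := by ring
    rw [e1, ex_split b (by omega) w i L (e * L + J) (fun n => ee (f n)), AA_succ,
      show 2 ^ (e + 1) * s = 2 * (2 ^ e * s) by ring]
    refine (cauchy (by omega) hw i L (i + L) (e * L + J) (2 ^ e * s) (fun u v => f ((u + b ^ L * v : ℕ) : ℝ))).trans ?_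
    apply sum_le_sum
    intro u' _
    apply mul_le_mul_of_nonneg_left _ (P_nonneg hw i L u')
    apply sum_le_sum
    intro u _
    apply mul_le_mul_of_nonneg_left _ (P_nonneg hw i L u)
    have h1 := hf.diff (u : ℝ) (u' : ℝ) ((b : ℝ) ^ L)
    have h2 : ((((e + 1 : ℕ) : ℝ)) + 1) * ((b : ℝ) ^ L) ^ (e + 1) * X * ((u : ℝ) - u') =
        ((e : ℝ) + 2) * (b : ℝ) ^ (L * (e + 1)) * X * ((u : ℝ) - u') := by
      rw [← pow_mul]
      push_cast
      ring
    rw [h2] at h1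
    have h3 := ih (i + L) _ _ h1
    refine le_trans (le_of_eq ?_) h3
    congr 2
    apply sum_congr rfl
    intro v _
    push_cast
    rfl

end Pool.Agent.J4.H93.PD
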