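import Pool.Agent.J4.H93.PD.PD2

set_option autoImplicit false

/-! Moments of the exponential sums over the values of a polynomial at integers with independent random digits. -/

namespace Pool.Agent.J4.H93.PD
open Finset
open Pool.Agent.H807R2.Dav
open Pool.Agent.H373R2.T7
open Pool.Agent.TH872.Sq

lemma PF.smul {d : ℕ} {x : ℝ} {f : ℝ → ℝ} (h : PF d x f) (c : ℝ) : PF d (c * x) (fun y => c * f y) := by
  obtain ⟨a, ha, hf⟩ := h
  refine ⟨fun j => c * a j, by rw [← ha], fun y => ?_⟩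
  show c * f y = _
  rw [hf, mul_sum]
  apply sum_congr rfl
  intro j _
  ring

open Classical in
/-- **Moments.** The number of frequencies with large exponential sums is bounded. -/
theorem moment_deg (b : ℕ) (hb : 2 ≤ b) (η : ℝ) (hη : 0 < η) (e : ℕ) (κ : ℤ) (hκ : κ ≠ 0) (F : ℕ) (hF : 1 ≤ F) :
    ∃ p : ℕ, ∃ C : ℝ, 1 ≤ p ∧ 0 < C ∧ ∀ k M : ℕ, b ^ ((e + 2) * k) ≤ M → M ≤ F * b ^ ((e + 2) * k) →
    ∀ (w : ℕ → ℕ → ℝ), Dig b η w → ∀ (i : ℕ) (v : ℕ → ℤ) (G : ℝ → ℝ), PF (e + 2) κ G → (∀ n : ℕ, (v n : ℝ) = G n) →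
    ∑ t ∈ range M, ‖∑ n ∈ range (b ^ k), ((P b w i k n : ℝ) : ℂ) * ee ((t : ℝ) * ((v n : ℝ) / M))‖ ^ (2 * p) ≤ C := by
  by_cases hη1 : η ≤ 1
  swap
  · exact ⟨1, 1, le_rfl, one_pos, fun k M _ _ w hw => absurd (eta_le hw) hη1⟩
  have hb2 : (2 : ℝ) ≤ b := by exact_mod_cast hb
  have hb0 : (0 : ℝ) < b := by linarith
  obtain ⟨s, f, c₁, c₂, hs1, hf1, hweyl⟩ := weyl_deg b hb η hη hη1 e
  obtain ⟨d, hd⟩ : ∃ d, d = e + 2 := ⟨_, rfl⟩
  simp only [← hd] at hweyl ⊢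
  obtain ⟨m, hm⟩ : ∃ m, m = 2 ^ (e + 1) * s := ⟨_, rfl⟩
  rw [← hm] at hweyl
  have hm1 : 1 ≤ m := by
    rw [hm]
    exact Nat.mul_pos (by positivity) hs1
  obtain ⟨τ, hτ⟩ : ∃ τ, τ = 1 - η / 2 := ⟨_, rfl⟩
  have hτ0 : 0 ≤ τ := by rw [hτ]; linarith
  have hτ1 : τ < 1 := by rw [hτ]; linarith
  rw [← hτ] at hweyl
  obtain ⟨c₃, hc₃⟩ : ∃ c₃, c₃ = 3 * c₁ + c₂ := ⟨_, rfl⟩
  obtain ⟨c₄, hc₄⟩ : ∃ c₄, c₄ = c₃ + 4 * d * d + 1 := ⟨_, rfl⟩
  obtain ⟨q₀, hq₀⟩ := exists_pow_lt_of_lt_one (show 0 < 1 / (b : ℝ) ^ c₄ by positivity) hτ1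
  obtain ⟨q, hq⟩ : ∃ q, q = q₀ + 1 := ⟨_, rfl⟩
  obtain ⟨y, hy⟩ : ∃ y, y = τ ^ q := ⟨_, rfl⟩
  have hy0 : 0 ≤ y := by rw [hy]; exact pow_nonneg hτ0 _
  have hyb : y ≤ 1 / (b : ℝ) ^ c₄ := by
    rw [hy, hq]
    exact (pow_le_pow_of_le_one hτ0 hτ1.le (by omega)).trans hq₀.le
  obtain ⟨κ', hκ'⟩ : ∃ κ' : ℕ, κ' = κ.natAbs := ⟨_, rfl⟩
  have hκ1 : 1 ≤ κ' := by rw [hκ']; exact Int.natAbs_pos.2 hκ
  obtain ⟨C₁, hC₁⟩ : ∃ C₁ : ℕ, C₁ = 3 * f ^ 3 * κ' * F := ⟨_, rfl⟩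
  obtain ⟨E, hE⟩ : ∃ E : ℝ, E = ((e : ℝ) + 1) ^ q := ⟨_, rfl⟩
  have he0 : (0 : ℝ) ≤ e := Nat.cast_nonneg e
  have hE1 : 1 ≤ E := by rw [hE]; exact one_le_pow₀ (by linarith)
  have hE0 : 0 ≤ E := by linarith
  refine ⟨m * q, E * (C₁ * b ^ (2 * c₃) + 2 * C₁ * b ^ c₃ + F * b ^ (4 * d * d)) + F * b ^ (8 * d * d), by rw [hq]; nlinarith, ?_,
    fun k M hM1 hM2 w hw i v G hG hv => ?_⟩
  · have h1 : (0 : ℝ) < F * b ^ (8 * d * d) := by positivity
    have h2 : (0 : ℝ) ≤ E * (C₁ * b ^ (2 * c₃) + 2 * C₁ * b ^ c₃ + F * b ^ (4 * d * d)) := by positivity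
    linarith
  have hM0 : 1 ≤ M := le_trans (Nat.one_le_pow _ _ (by omega)) hM1
  have hMr : (0 : ℝ) < M := by exact_mod_cast hM0
  obtain ⟨W, hW⟩ : ∃ W : ℕ → ℝ, ∀ t, W t = ‖∑ n ∈ range (b ^ k), ((P b w i k n : ℝ) : ℂ) * ee ((t : ℝ) * ((v n : ℝ) / M))‖ :=
    ⟨_, fun _ => rfl⟩
  simp only [← hW]
  have hW0 : ∀ t, 0 ≤ W t := fun t => by rw [hW]; exact norm_nonneg _
  have hW1 : ∀ t, W t ≤ 1 := by
    intro t
    rw [hW]
    exact norm_avg (by omega) hw i k _ 1 (fun n => by rw [norm_ee])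
  have hd1 : 1 ≤ d := by omega
  rcases Nat.lt_or_ge k (8 * d) with hk | hk
  · calc ∑ t ∈ range M, W t ^ (2 * (m * q)) ≤ ∑ t ∈ range M, (1 : ℝ) := sum_le_sum fun t _ => pow_le_one₀ (hW0 t) (hW1 t)
      _ = M := by rw [sum_const, card_range, nsmul_eq_mul, mul_one]
      _ ≤ _ := by
          have h1 : M ≤ F * b ^ (8 * d * d) := by
            refine hM2.trans (Nat.mul_le_mul_left _ (Nat.pow_le_pow_right (by omega) ?_))
            calc d * k ≤ d * (8 * d) := Nat.mul_le_mul_left _ hk.le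
              _ = _ := by ring
          have h1' : (M : ℝ) ≤ F * b ^ (8 * d * d) := by exact_mod_cast h1
          have h2 : (0 : ℝ) ≤ E * (C₁ * b ^ (2 * c₃) + 2 * C₁ * b ^ c₃ + F * b ^ (4 * d * d)) := by positivity
          linarith
  -- the major frequencies
  obtain ⟨Mj, hMj⟩ : ∃ Mj : ℕ → ℕ → Prop, ∀ L, Mj L = Maj M κ' (f * b ^ (c₁ * L)) (f * F * b ^ ((c₁ + c₂) * L)) := ⟨fun L => _, fun _ => rfl⟩
  have hcnt : ∀ L, (((range M).filter (Mj L)).card : ℝ) ≤ C₁ * b ^ (c₃ * L) := by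
    intro L
    have h1 := count_maj M κ' (f * b ^ (c₁ * L)) (f * F * b ^ ((c₁ + c₂) * L)) hM0 hκ1
    rw [← hMj] at h1
    have h2 : f * b ^ (c₁ * L) * ((2 * (f * F * b ^ ((c₁ + c₂) * L)) + 1) * (κ' * (f * b ^ (c₁ * L)))) ≤ C₁ * b ^ (c₃ * L) := by
      have h3 : 2 * (f * F * b ^ ((c₁ + c₂) * L)) + 1 ≤ 3 * (f * F * b ^ ((c₁ + c₂) * L)) := by
        have : 0 < f * F * b ^ ((c₁ + c₂) * L) := by positivity
        omega
      calc f * b ^ (c₁ * L) * ((2 * (f * F * b ^ ((c₁ + c₂) * L)) + 1) * (κ' * (f * b ^ (c₁ * L)))) ≤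
          f * b ^ (c₁ * L) * ((3 * (f * F * b ^ ((c₁ + c₂) * L))) * (κ' * (f * b ^ (c₁ * L)))) :=
            Nat.mul_le_mul_left _ (Nat.mul_le_mul_right _ h3)
        _ = 3 * f ^ 3 * κ' * F * (b ^ (c₁ * L) * b ^ ((c₁ + c₂) * L) * b ^ (c₁ * L)) := by ring
        _ = _ := by
            rw [hC₁, ← pow_add, ← pow_add, hc₃]
            congr 2
            ring
    have h4 : ((range M).filter (Mj L)).card ≤ C₁ * b ^ (c₃ * L) := by
      refine le_trans ?_ h2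
      convert h1 using 2
    exact_mod_cast h4
  have hmin : ∀ t L, 2 ≤ L → 4 * d * L ≤ k → ¬ Mj L t → W t ^ (2 * (m * q)) ≤ E * y ^ L := by
    intro t L hL1 hL2 hnot
    rcases hweyl k L hL1 hL2 w hw i _ _ (hG.smul ((t : ℝ) / M)) with h | ⟨Q, a, hQ1, hQ2, hQ3⟩
    · have h1 : W t ^ m ≤ ((e : ℝ) + 1) * τ ^ L := by
        refine le_trans (le_of_eq ?_) h
        rw [hW]
        congr 2
        apply sum_congr rfl
        intro n _
        congr 2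
        rw [hv n]
        ring
      calc W t ^ (2 * (m * q)) ≤ W t ^ (m * q) := pow_le_pow_of_le_one (hW0 t) (hW1 t) (by omega)
        _ = (W t ^ m) ^ q := by rw [← pow_mul]
        _ ≤ (((e : ℝ) + 1) * τ ^ L) ^ q := pow_le_pow_left₀ (pow_nonneg (hW0 t) _) h1 q
        _ = _ := by rw [hy, hE, mul_pow, ← pow_mul, ← pow_mul, mul_comm L q]
    · exfalso
      apply hnot
      rw [hMj]
      have hQr : (0 : ℝ) < Q := by exact_mod_cast hQ1
      have h1 : |(t : ℝ) * κ * Q - a * M| ≤ ((f * F * b ^ ((c₁ + c₂) * L) : ℕ) : ℝ) := by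
        have h2 : |(t : ℝ) * κ * Q - a * M| = |(t : ℝ) / M * κ - a / Q| * (Q * M) := by
          have e : (t : ℝ) * κ * Q - a * M = ((t : ℝ) / M * κ - a / Q) * (Q * M) := by field_simp
          rw [e, abs_mul, abs_of_pos (by positivity : (0 : ℝ) < (Q : ℝ) * M)]
        rw [h2]
        have h3 : (Q * M : ℝ) ≤ ((f * b ^ (c₁ * L) : ℕ) : ℝ) * (F * (b : ℝ) ^ (d * k)) := by
          apply mul_le_mul
          · exact_mod_cast hQ2
          · exact_mod_cast hM2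
          · positivity
          · positivity
        calc |(t : ℝ) / M * κ - a / Q| * (Q * M) ≤ |(t : ℝ) / M * κ - a / Q| * (((f * b ^ (c₁ * L) : ℕ) : ℝ) * (F * (b : ℝ) ^ (d * k))) :=
              mul_le_mul_of_nonneg_left h3 (abs_nonneg _)
          _ = (|(t : ℝ) / M * κ - a / Q| * (b : ℝ) ^ (d * k)) * (((f * b ^ (c₁ * L) : ℕ) : ℝ) * F) := by ring
          _ ≤ (b : ℝ) ^ (c₂ * L) * (((f * b ^ (c₁ * L) : ℕ) : ℝ) * F) := mul_le_mul_of_nonneg_right hQ3 (by positivity)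
          _ = _ := by rw [add_mul, pow_add]; push_cast; ring
      rcases le_total 0 κ with hpos | hneg
      · refine ⟨Q, a, hQ1, hQ2, ?_⟩
        have h4 : ((κ' : ℕ) : ℤ) = κ := by rw [hκ']; exact Int.natAbs_of_nonneg hpos
        have h5 : (((κ' * Q * t : ℕ) : ℤ) - a * M : ℤ) = t * κ * Q - a * M := by push_cast; rw [h4]; ring
        rw [h5]
        exact_mod_cast h1
      · refine ⟨Q, -a, hQ1, hQ2, ?_⟩
        have h4 : ((κ' : ℕ) : ℤ) = -κ := by rw [hκ']; exact Int.ofNat_natAbs_of_nonpos hneg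
        have h5 : (((κ' * Q * t : ℕ) : ℤ) - -a * M : ℤ) = -(t * κ * Q - a * M) := by push_cast; rw [h4]; ring
        rw [h5, abs_neg]
        exact_mod_cast h1
  -- pointwise
  obtain ⟨χ, hχ⟩ : ∃ χ : ℕ → ℕ → ℝ, ∀ L t, χ L t = if Mj L t then 1 else 0 := ⟨_, fun _ _ => rfl⟩
  have hχ0 : ∀ L t, 0 ≤ χ L t := fun L t => by rw [hχ]; split_ifs <;> norm_num
  have hpt : ∀ t, ∀ L, 2 ≤ L → 4 * d * L ≤ k → W t ^ (2 * (m * q)) ≤ E * (χ 2 t + ∑ l ∈ Ico 2 L, y ^ l * χ (l + 1) t + y ^ L) := by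
    intro t L hL
    induction L, hL using Nat.le_induction with
    | base =>
      intro h8
      rw [Ico_self, sum_empty, add_zero]
      by_cases h : Mj 2 t
      · rw [hχ, if_pos h]
        have h1 := pow_le_one₀ (n := 2 * (m * q)) (hW0 t) (hW1 t)
        have h2 := mul_nonneg hE0 (pow_nonneg hy0 2)
        rw [mul_add, mul_one]
        linarith
      · have h1 := hmin t 2 le_rfl h8 h
        have h2 := mul_nonneg hE0 (hχ0 2 t)
        rw [mul_add]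
        linarith
    | succ L hL ih =>
      intro h8
      have h9 : 4 * d * L ≤ k := le_trans (Nat.mul_le_mul_left _ (by omega)) h8
      have h1 := ih h9
      rw [sum_Ico_succ_top hL]
      by_cases h : Mj (L + 1) t
      · rw [hχ (L + 1), if_pos h, mul_one]
        refine h1.trans (mul_le_mul_of_nonneg_left ?_ hE0)
        have h2 := pow_nonneg hy0 (L + 1)
        linarith
      · refine (hmin t (L + 1) (by omega) h8 h).trans (mul_le_mul_of_nonneg_left ?_ hE0)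
        have h2 := hχ0 2 t
        have h3 : 0 ≤ ∑ l ∈ Ico 2 L, y ^ l * χ (l + 1) t := sum_nonneg fun l _ => mul_nonneg (pow_nonneg hy0 _) (hχ0 _ _)
        have h4 : 0 ≤ y ^ L * χ (L + 1) t := mul_nonneg (pow_nonneg hy0 _) (hχ0 _ _)
        linarith
  obtain ⟨Lm, hLm⟩ : ∃ Lm, Lm = k / (4 * d) := ⟨_, rfl⟩
  have hLm1 : 4 * d * Lm ≤ k := by rw [hLm]; exact Nat.mul_div_le _ _
  have hLm2 : k < 4 * d * (Lm + 1) := by rw [hLm]; exact Nat.lt_mul_div_succ k (by omega)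
  have hLm3 : 2 ≤ Lm := by
    rw [hLm, Nat.le_div_iff_mul_le (by omega)]
    linarith
  have hsumχ : ∀ L, ∑ t ∈ range M, χ L t ≤ C₁ * b ^ (c₃ * L) := by
    intro L
    refine le_trans (le_of_eq ?_) (hcnt L)
    simp only [hχ]
    rw [sum_boole]
  have hyc : (b : ℝ) ^ c₃ * y ≤ 1 / 2 := by
    calc (b : ℝ) ^ c₃ * y ≤ (b : ℝ) ^ c₃ * (1 / (b : ℝ) ^ c₄) := mul_le_mul_of_nonneg_left hyb (by positivity)
      _ = 1 / (b : ℝ) ^ (4 * d * d + 1) := by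
          rw [hc₄, add_assoc, pow_add]
          field_simp
      _ ≤ 1 / (b : ℝ) ^ 1 := by
          apply one_div_le_one_div_of_le (by positivity)
          exact pow_le_pow_right₀ (by linarith) (by omega)
      _ ≤ 1 / 2 := by
          rw [pow_one]
          exact one_div_le_one_div_of_le (by norm_num) hb2
  have hyd : (b : ℝ) ^ (4 * d * d) * y ≤ 1 := by
    calc (b : ℝ) ^ (4 * d * d) * y ≤ (b : ℝ) ^ (4 * d * d) * (1 / (b : ℝ) ^ c₄) := mul_le_mul_of_nonneg_left hyb (by positivity)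
      _ = (b : ℝ) ^ (4 * d * d) / (b : ℝ) ^ c₄ := by ring
      _ ≤ 1 := by
          rw [div_le_one (by positivity)]
          exact pow_le_pow_right₀ (by linarith) (by omega)
  have hsum := sum_le_sum (fun t (_ : t ∈ range M) => hpt t Lm hLm3 hLm1)
  refine hsum.trans ?_
  rw [← mul_sum, sum_add_distrib, sum_add_distrib, sum_comm, sum_const, card_range, nsmul_eq_mul]
  have t1 : ∑ t ∈ range M, χ 2 t ≤ C₁ * b ^ (2 * c₃) := by
    have := hsumχ 2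
    rwa [mul_comm c₃ 2] at this
  have t2 : ∑ l ∈ Ico 2 Lm, ∑ t ∈ range M, y ^ l * χ (l + 1) t ≤ 2 * C₁ * b ^ c₃ := by
    have h1 : ∀ l ∈ Ico 2 Lm, ∑ t ∈ range M, y ^ l * χ (l + 1) t ≤ (C₁ * (b : ℝ) ^ c₃) * (1 / 2) ^ l := by
      intro l _
      rw [← mul_sum]
      calc y ^ l * ∑ t ∈ range M, χ (l + 1) t ≤ y ^ l * (C₁ * b ^ (c₃ * (l + 1))) :=
            mul_le_mul_of_nonneg_left (hsumχ _) (pow_nonneg hy0 l)
        _ = (C₁ * (b : ℝ) ^ c₃) * ((b : ℝ) ^ c₃ * y) ^ l := by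
            rw [mul_pow, mul_add, pow_add, pow_mul, mul_one]
            ring
        _ ≤ _ := by
            apply mul_le_mul_of_nonneg_left _ (by positivity)
            exact pow_le_pow_left₀ (by positivity) hyc l
    refine (sum_le_sum h1).trans ?_
    rw [← mul_sum]
    have h2 : ∑ l ∈ Ico 2 Lm, (1 / 2 : ℝ) ^ l ≤ 2 := by
      calc ∑ l ∈ Ico 2 Lm, (1 / 2 : ℝ) ^ l ≤ ∑ l ∈ range Lm, (1 / 2 : ℝ) ^ l := by
            apply sum_le_sum_of_subset_of_nonneg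
            · intro l hl
              rw [mem_Ico] at hl
              exact mem_range.2 hl.2
            · intro l _ _
              positivity
        _ ≤ 2 := by
            rw [geom_sum_eq (by norm_num)]
            have : (0 : ℝ) ≤ (1 / 2) ^ Lm := by positivity
            rw [div_le_iff_of_neg (by norm_num)]
            linarith
    calc (C₁ * (b : ℝ) ^ c₃) * ∑ l ∈ Ico 2 Lm, (1 / 2 : ℝ) ^ l ≤ (C₁ * (b : ℝ) ^ c₃) * 2 := mul_le_mul_of_nonneg_left h2 (by positivity)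
      _ = _ := by ring
  have t3 : (M : ℝ) * y ^ Lm ≤ F * b ^ (4 * d * d) := by
    calc (M : ℝ) * y ^ Lm ≤ (F * (b : ℝ) ^ (d * k)) * y ^ Lm := by
          apply mul_le_mul_of_nonneg_right _ (pow_nonneg hy0 _)
          exact_mod_cast hM2
      _ ≤ (F * (b : ℝ) ^ (4 * d * d * Lm + 4 * d * d)) * y ^ Lm := by
          apply mul_le_mul_of_nonneg_right _ (pow_nonneg hy0 _)
          apply mul_le_mul_of_nonneg_left _ (Nat.cast_nonneg _)
          apply pow_le_pow_right₀ (by linarith)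
          calc d * k ≤ d * (4 * d * (Lm + 1)) := Nat.mul_le_mul_left _ hLm2.le
            _ = _ := by ring
      _ = (F * (b : ℝ) ^ (4 * d * d)) * ((b : ℝ) ^ (4 * d * d) * y) ^ Lm := by
          rw [mul_pow, pow_add, pow_mul (b : ℝ) (4 * d * d) Lm]
          ring
      _ ≤ (F * (b : ℝ) ^ (4 * d * d)) * 1 := by
          apply mul_le_mul_of_nonneg_left _ (by positivity)
          exact pow_le_one₀ (by positivity) hyd
      _ = _ := mul_one _
  have t4 : (0 : ℝ) ≤ F * b ^ (8 * d * d) := by positivity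
  have t5 : E * (∑ t ∈ range M, χ 2 t + ∑ l ∈ Ico 2 Lm, ∑ t ∈ range M, y ^ l * χ (l + 1) t + M * y ^ Lm) ≤
      E * (C₁ * b ^ (2 * c₃) + 2 * C₁ * b ^ c₃ + F * b ^ (4 * d * d)) := mul_le_mul_of_nonneg_left (by linarith) hE0
  linarith

end Pool.Agent.J4.H93.PD
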