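import Pool.Agent.J4.H93.PD.PD3
import Pool.Agent.TH872.GQ.Win

set_option autoImplicit false

/-! The additive energy of the values of a polynomial of arbitrary degree at integers with restricted digits, and
Goldbach pairs in windows for these values. -/

namespace Pool.Agent.J4.H93.PD
open Finset
open Pool.Agent.H807R2.Dav
open Pool.Agent.H373R2.T7
open Pool.Agent.TH872.Sq
open Pool.Agent.TH872.GQ
open Pool.Agent.TH212.EH (En)

/-- integer polynomials as polynomial functions -/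
lemma PF_poly (f : Polynomial ℤ) (d : ℕ) (hd : f.natDegree ≤ d) :
    PF d (f.coeff d) (fun y => (f.map (Int.castRingHom ℝ)).eval y) := by
  refine ⟨fun j => (f.coeff j : ℝ), rfl, fun y => ?_⟩
  show (f.map (Int.castRingHom ℝ)).eval y = _
  have h1 : (f.map (Int.castRingHom ℝ)).natDegree < d + 1 :=
    lt_of_le_of_lt (Polynomial.natDegree_map_le) (by omega)
  rw [Polynomial.eval_eq_sum_range' h1]
  apply sum_congr rfl
  intro j _
  rw [Polynomial.coeff_map]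
  rfl

lemma poly_val (f : Polynomial ℤ) (n : ℕ) : ((f.eval (n : ℤ) : ℤ) : ℝ) = (f.map (Int.castRingHom ℝ)).eval (n : ℝ) := by
  have h := Polynomial.eval_intCast_map (Int.castRingHom ℝ) f (n : ℤ)
  rw [show ((n : ℤ) : ℝ) = (n : ℝ) from Int.cast_natCast n] at h
  rw [h]
  rfl

/-- **The values of a polynomial at integers with restricted digits have nearly minimal energy.** -/
theorem poly_energy (b : ℕ) (hb : 2 ≤ b) (e : ℕ) (κ : ℤ) (hκ : κ ≠ 0) : ∃ p : ℕ, ∃ C : ℝ, 1 ≤ p ∧ 0 < C ∧ ∀ k : ℕ,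
    ∀ D : ℕ → Finset ℕ, (∀ i < k, D i ⊆ range b ∧ 2 ≤ (D i).card) → ∀ (v : ℕ → ℤ) (G : ℝ → ℝ), PF (e + 2) κ G →
    (∀ n : ℕ, (v n : ℝ) = G n) →
    (En p (fun i : {n // n ∈ SD b D k} => v i.1) : ℝ) * ((b ^ ((e + 2) * k) : ℕ) : ℝ) ≤
      C * (Fintype.card {n // n ∈ SD b D k} : ℝ) ^ (2 * p) := by
  classical
  obtain ⟨p, C, hp, hC, hmom⟩ := moment_deg b hb (1 / 2) (by norm_num) e κ hκ 1 le_rfl
  refine ⟨p, C, hp, hC, fun k D hD v G hG hv => ?_⟩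
  obtain ⟨M, hM⟩ : ∃ M, M = b ^ ((e + 2) * k) := ⟨_, rfl⟩
  have hM1 : 1 ≤ M := by rw [hM]; exact Nat.one_le_pow _ _ (by omega)
  have hcard := SD_card_pos b hb D k hD
  have hfc : Fintype.card {n // n ∈ SD b D k} = (SD b D k).card := Fintype.card_coe _
  have hne : Nonempty {n // n ∈ SD b D k} := by
    rw [← Fintype.card_pos_iff, hfc]
    exact_mod_cast hcard
  have h1 := En_le p (fun i : {n // n ∈ SD b D k} => v i.1) M hM1
  have h2 := hmom k M (by rw [hM]) (by rw [hM, one_mul]) (wD D k) (dig_wD b hb D k hD) 0 v G hG hv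
  obtain ⟨Z, hZ⟩ : ∃ Z : ℝ, Z = ((SD b D k).card : ℝ) := ⟨_, rfl⟩
  rw [← hZ] at hcard
  rw [← hM, hfc, ← hZ, mul_comm]
  refine h1.trans ?_
  have h3 : ∀ t ∈ range M, ‖∑ i : {n // n ∈ SD b D k}, ee ((t : ℝ) * ((v i.1 : ℝ) / M))‖ ^ (2 * p) =
      Z ^ (2 * p) * ‖∑ n ∈ range (b ^ k), ((P b (wD D k) 0 k n : ℝ) : ℂ) * ee ((t : ℝ) * ((v n : ℝ) / M))‖ ^ (2 * p) := by
    intro t _
    have e1 : ∑ i : {n // n ∈ SD b D k}, ee ((t : ℝ) * ((v i.1 : ℝ) / M)) =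
        ∑ n ∈ SD b D k, ee ((t : ℝ) * ((v n : ℝ) / M)) := by
      rw [← sum_coe_sort (SD b D k) (fun n => ee ((t : ℝ) * ((v n : ℝ) / M)))]
    have e3 : ∑ n ∈ range (b ^ k), ((P b (wD D k) 0 k n : ℝ) : ℂ) * ee ((t : ℝ) * ((v n : ℝ) / M)) =
        (((1 / Z : ℝ)) : ℂ) * ∑ n ∈ SD b D k, ee ((t : ℝ) * ((v n : ℝ) / M)) := by
      have h4 : ∀ n ∈ range (b ^ k), ((P b (wD D k) 0 k n : ℝ) : ℂ) * ee ((t : ℝ) * ((v n : ℝ) / M)) =
          if n ∈ SD b D k then ((1 / Z : ℝ) : ℂ) * ee ((t : ℝ) * ((v n : ℝ) / M)) else 0 := by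
        intro n hn
        rw [P_wD b hb D k hD n hn, ← hZ]
        split_ifs
        · rfl
        · simp
      rw [sum_congr rfl h4, ← sum_filter, mul_sum]
      apply sum_congr _ fun _ _ => rfl
      ext n
      rw [mem_filter]
      refine ⟨fun h => h.2, fun h => ⟨?_, h⟩⟩
      unfold SD at h
      exact (mem_filter.1 h).1
    rw [e1, e3, norm_mul, mul_pow, ← mul_assoc]
    have e4 : ‖(((1 / Z : ℝ)) : ℂ)‖ = 1 / Z := by
      rw [Complex.norm_real, Real.norm_eq_abs, abs_of_pos (by positivity)]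
    rw [e4, ← mul_pow, mul_one_div_cancel hcard.ne', one_pow, one_mul]
  rw [sum_congr rfl h3, ← mul_sum, mul_comm]
  exact mul_le_mul_of_nonneg_right h2 (by positivity)

lemma log_bounds_deg (b F₁ e : ℕ) (hb : 2 ≤ b) (hF : 1 ≤ F₁) : ∃ K₀ : ℕ, ∀ k : ℕ, K₀ ≤ k →
    (k : ℝ) ≤ Real.log ((F₁ * b ^ ((e + 2) * k) : ℕ) : ℝ) ∧ Real.log ((F₁ * b ^ ((e + 2) * k) : ℕ) : ℝ) ≤ (k : ℝ) ^ 2 := by
  have hb2 : (2 : ℝ) ≤ b := by exact_mod_cast hb
  have hF1 : (1 : ℝ) ≤ F₁ := by exact_mod_cast hF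
  have hlF : 0 ≤ Real.log F₁ := Real.log_nonneg hF1
  have hlb : 1 / 2 ≤ Real.log b := by
    have h1 : Real.log 2 ≤ Real.log b := Real.log_le_log (by norm_num) hb2
    have h2 := Real.log_two_gt_d9
    linarith
  obtain ⟨K2, hK2⟩ := exists_nat_ge (Real.log F₁ + (e + 2) * Real.log b + 1)
  refine ⟨K2 + 1, fun k hk => ?_⟩
  have hkr : (K2 : ℝ) + 1 ≤ k := by exact_mod_cast hk
  have e1 : Real.log ((F₁ * b ^ ((e + 2) * k) : ℕ) : ℝ) = Real.log F₁ + (e + 2) * k * Real.log b := by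
    push_cast
    rw [Real.log_mul (by positivity) (by positivity), Real.log_pow]
    push_cast
    ring
  rw [e1]
  have hk0 : (0 : ℝ) ≤ k := Nat.cast_nonneg k
  have he0 : (0 : ℝ) ≤ e := Nat.cast_nonneg e
  have hek : 0 ≤ (e : ℝ) * k := by positivity
  constructor
  · have h1 : (k : ℝ) ≤ (e + 2) * k * Real.log b := by
      have h2 : ((e : ℝ) + 2) * k * (1 / 2) ≤ (e + 2) * k * Real.log b := mul_le_mul_of_nonneg_left hlb (by positivity)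
      nlinarith
    linarith
  · have h3 : Real.log F₁ + (e + 2) * k * Real.log b ≤ (Real.log F₁ + (e + 2) * Real.log b + 1) * k := by
      have hk1 : (1 : ℝ) ≤ k := by
        have : (0 : ℝ) ≤ K2 := Nat.cast_nonneg K2
        linarith
      nlinarith
    have h4 : (Real.log F₁ + (e + 2) * Real.log b + 1) * k ≤ k * k := mul_le_mul_of_nonneg_right (by linarith) hk0
    calc _ ≤ _ := h3.trans h4
      _ = _ := by ring

/-- the family of the values -/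
theorem fam_deg (b : ℕ) (hb : 2 ≤ b) (e : ℕ) (κ : ℤ) (hκ : κ ≠ 0) (B : ℕ) : ∃ h B' k₀ : ℕ, 1 ≤ h ∧ 1 ≤ B' ∧ ∀ k : ℕ, k₀ ≤ k →
    ∀ D : ℕ → Finset ℕ, (∀ i < k, D i ⊆ range b ∧ 2 ≤ (D i).card) → ∀ (v : ℕ → ℤ) (G : ℝ → ℝ), PF (e + 2) κ G →
    (∀ n : ℕ, (v n : ℝ) = G n) → (∀ n < b ^ k, |v n| ≤ B * (b : ℤ) ^ ((e + 2) * k)) →
    (∀ i : {n // n ∈ S b D k}, |v i.1| ≤ ((B' * b ^ ((e + 2) * k) : ℕ) : ℤ)) ∧
    (En h (fun i : {n // n ∈ S b D k} => v i.1) : ℝ) * ((B' * b ^ ((e + 2) * k) : ℕ) : ℝ) ≤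
      Real.log ((B' * b ^ ((e + 2) * k) : ℕ) : ℝ) ^ 1 * (Fintype.card {n // n ∈ S b D k} : ℝ) ^ (2 * h) ∧
    (k : ℝ) ≤ Real.log ((B' * b ^ ((e + 2) * k) : ℕ) : ℝ) ∧ Real.log ((B' * b ^ ((e + 2) * k) : ℕ) : ℝ) ≤ (k : ℝ) ^ 2 := by
  classical
  obtain ⟨p, C, hp, hC, hE⟩ := poly_energy b hb e κ hκ
  obtain ⟨B', hB'⟩ : ∃ B' : ℕ, B' = B + 1 := ⟨_, rfl⟩
  obtain ⟨K1, hK1⟩ := log_bounds_deg b B' e hb (by omega)
  obtain ⟨K2, hK2⟩ := exists_nat_ge (C * B')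
  refine ⟨p, B', K1 + K2, hp, by omega, fun k hk D hD v G hG hv hvb => ?_⟩
  obtain ⟨hl1, hl2⟩ := hK1 k (by omega)
  refine ⟨fun i => ?_, ?_, hl1, hl2⟩
  · have h1 : (i.1 : ℕ) < b ^ k := by
      have h := i.2
      unfold S at h
      exact mem_range.1 (mem_filter.1 h).1
    refine (hvb _ h1).trans ?_
    rw [hB']
    push_cast
    have : (0 : ℤ) ≤ (b : ℤ) ^ ((e + 2) * k) := by positivity
    nlinarith
  · have h1 := hE k D hD v G hG hv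
    rw [pow_one]
    obtain ⟨Z, hZ⟩ : ∃ Z : ℝ, Z = (Fintype.card {n // n ∈ S b D k} : ℝ) ^ (2 * p) := ⟨_, rfl⟩
    have hZ0 : 0 ≤ Z := by rw [hZ]; positivity
    have h2 : (En p (fun i : {n // n ∈ S b D k} => v i.1) : ℝ) * ((b ^ ((e + 2) * k) : ℕ) : ℝ) ≤ C * Z := by
      rw [hZ]
      exact h1
    rw [← hZ]
    have h3 : (K2 : ℝ) ≤ k := by exact_mod_cast (by omega : K2 ≤ k)
    have h4 : (0 : ℝ) ≤ B' := Nat.cast_nonneg _
    calc (En p (fun i : {n // n ∈ S b D k} => v i.1) : ℝ) * ((B' * b ^ ((e + 2) * k) : ℕ) : ℝ) =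
          B' * ((En p (fun i : {n // n ∈ S b D k} => v i.1) : ℝ) * ((b ^ ((e + 2) * k) : ℕ) : ℝ)) := by
            push_cast
            ring
      _ ≤ B' * (C * Z) := mul_le_mul_of_nonneg_left h2 h4
      _ = (C * B') * Z := by ring
      _ ≤ Real.log ((B' * b ^ ((e + 2) * k) : ℕ) : ℝ) * Z := mul_le_mul_of_nonneg_right (by linarith) hZ0

/-- Goldbach pairs in windows -/
theorem win_deg (b B A U m₀ : ℕ) (hb : 2 ≤ b) (e : ℕ) (κ : ℤ) (hκ : κ ≠ 0) (ε : ℝ) (hε : 0 < ε) (Q : ℕ → Prop)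
    (hQ : ∀ m : ℕ, m₀ ≤ m → 2 ∣ m → Pool.Agent.W93.PG.WinP ε A m → Q m) :
    ∃ k₀ : ℕ, ∀ k : ℕ, k₀ ≤ k → ∀ D : ℕ → Finset ℕ, (∀ i < k, D i ⊆ range b ∧ 2 ≤ (D i).card) →
      ∀ (v : ℕ → ℤ) (G : ℝ → ℝ), PF (e + 2) κ G → (∀ n : ℕ, (v n : ℝ) = G n) →
      (∀ n < b ^ k, |v n| ≤ B * (b : ℤ) ^ ((e + 2) * k)) → ∀ P : ℕ → Prop, [DecidablePred P] →
      (∀ n, P n → 0 < v n ∧ Even (v n) ∧ ¬ Q (v n).toNat) →
      (((S b D k).filter P).card : ℝ) ≤ (S b D k).card / (k : ℝ) ^ U := by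
  classical
  obtain ⟨h, B', k1, hh, hB1, hfam⟩ := fam_deg b hb e κ hκ B
  obtain ⟨n3, h3⟩ := Pool.Agent.TH935.GF.transfer h 1 1 U Q (by
    intro B C U
    exact Pool.Agent.TH935.GF.fam_win h B C A U m₀ hh ε hε Q hQ)
  refine ⟨k1 + n3 + 2, fun k hk D hD v G hG hv hvb P _ hP => ?_⟩
  obtain ⟨f1, f2, f3, f4⟩ := hfam k (by omega) D hD v G hG hv hvb
  obtain ⟨N, hN⟩ : ∃ N : ℕ, N = B' * b ^ ((e + 2) * k) := ⟨_, rfl⟩
  have hkN : k ≤ N := by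
    rw [hN]
    calc k ≤ (e + 2) * k := Nat.le_mul_of_pos_left _ (by omega)
      _ ≤ b ^ ((e + 2) * k) := (Nat.lt_pow_self (by omega)).le
      _ ≤ _ := Nat.le_mul_of_pos_left _ (by omega)
  rw [← hN] at f1 f2 f3
  have hfc : Fintype.card {n // n ∈ S b D k} = (S b D k).card := Fintype.card_coe _
  have r2 := h3 N (by omega) {n // n ∈ S b D k} (fun i => v i.1) (fun i => by
    have := (abs_le.1 (f1 i)).2
    push_cast
    linarith) f2 (univ.filter (fun i => P i.1)) (fun i hi => hP i.1 (mem_filter.1 hi).2)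
  rw [hfc] at r2
  have r3 := r2.trans (pow_of_log _ _ (Nat.cast_nonneg _) k U (by omega) f3)
  exact conv (S b D k) P (fun i => P i.1) (fun i hi => hi) _ r3

lemma PF.add_const {d : ℕ} {x : ℝ} {f : ℝ → ℝ} (hd : 1 ≤ d) (h : PF d x f) (c : ℝ) : PF d x (fun y => f y + c) := by
  obtain ⟨a, ha, hf⟩ := h
  refine ⟨fun j => a j + (if j = 0 then c else 0), ?_, fun y => ?_⟩
  · show a d + (if d = 0 then c else 0) = x
    rw [if_neg (by omega), add_zero, ha]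
  · show f y + c = ∑ j ∈ range (d + 1), (a j + (if j = 0 then c else 0)) * y ^ j
    rw [hf]
    simp only [add_mul]
    rw [sum_add_distrib]
    congr 1
    rw [sum_eq_single 0]
    · simp
    · intro j _ hj
      rw [if_neg hj, zero_mul]
    · intro h0
      simp at h0

lemma pow_le_exp (b W : ℕ) (hb : 2 ≤ b) : ∃ K₀ : ℕ, ∀ k : ℕ, K₀ ≤ k → k ^ W ≤ b ^ k := by
  have hb1 : (1 : ℝ) < b := by exact_mod_cast (by omega : 1 < b)
  have h := tendsto_pow_const_div_const_pow_of_one_lt W hb1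
  obtain ⟨K₀, hK⟩ := Filter.eventually_atTop.1 (h.eventually (ge_mem_nhds (show (0 : ℝ) < 1 by norm_num)))
  refine ⟨K₀, fun k hk => ?_⟩
  have h1 := hK k hk
  rw [div_le_one (by positivity)] at h1
  exact_mod_cast h1

open Classical in
/-- Goldbach pairs in windows, for all the integers near the values -/
theorem win_nbhd (b B A U W m₀ : ℕ) (hb : 2 ≤ b) (e : ℕ) (κ : ℤ) (hκ : κ ≠ 0) (ε : ℝ) (hε : 0 < ε) (Q : ℕ → Prop)
    (hQ : ∀ m : ℕ, m₀ ≤ m → 2 ∣ m → Pool.Agent.W93.PG.WinP ε A m → Q m) :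
    ∃ k₀ : ℕ, ∀ k : ℕ, k₀ ≤ k → ∀ D : ℕ → Finset ℕ, (∀ i < k, D i ⊆ range b ∧ 2 ≤ (D i).card) →
      ∀ (v : ℕ → ℤ) (G : ℝ → ℝ), PF (e + 2) κ G → (∀ n : ℕ, (v n : ℝ) = G n) →
      (∀ n < b ^ k, |v n| ≤ B * (b : ℤ) ^ ((e + 2) * k)) →
      (((S b D k).filter (fun n => ∃ r : ℤ, |r| ≤ (k : ℤ) ^ W ∧ 0 < v n + r ∧ Even (v n + r) ∧
        ¬ Q (v n + r).toNat)).card : ℝ) ≤ (S b D k).card / (k : ℝ) ^ U := by
  obtain ⟨k₀, h⟩ := win_deg b (B + 1) A (U + W + 2) m₀ hb e κ hκ ε hε Q hQ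
  obtain ⟨k₁, hk₁⟩ := pow_le_exp b W hb
  refine ⟨k₀ + k₁ + 2, fun k hk D hD v G hG hv hvb => ?_⟩
  have hk2 : (2 : ℝ) ≤ k := by exact_mod_cast (by omega : 2 ≤ k)
  have hkW : (k : ℤ) ^ W ≤ (b : ℤ) ^ ((e + 2) * k) := by
    have h1 := hk₁ k (by omega)
    have h2 : b ^ k ≤ b ^ ((e + 2) * k) := Nat.pow_le_pow_right (by omega) (Nat.le_mul_of_pos_left _ (by omega))
    exact_mod_cast h1.trans h2
  have hone : ∀ r ∈ Icc (-((k : ℤ) ^ W)) ((k : ℤ) ^ W), (((S b D k).filter (fun n => 0 < v n + r ∧ Even (v n + r) ∧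
      ¬ Q (v n + r).toNat)).card : ℝ) ≤ (S b D k).card / (k : ℝ) ^ (U + W + 2) := by
    intro r hr
    rw [mem_Icc] at hr
    apply h k (by omega) D hD (fun n => v n + r) (fun y => G y + r) (hG.add_const (by omega) _)
    · intro n
      push_cast
      rw [hv]
    · intro n hn
      refine (abs_add_le _ _).trans ?_
      have h1 := hvb n hn
      have h2 : |r| ≤ (k : ℤ) ^ W := abs_le.2 hr
      push_cast
      linarith
    · intro n hn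
      exact hn
  have hsub : (S b D k).filter (fun n => ∃ r : ℤ, |r| ≤ (k : ℤ) ^ W ∧ 0 < v n + r ∧ Even (v n + r) ∧
        ¬ Q (v n + r).toNat) ⊆ (Icc (-((k : ℤ) ^ W)) ((k : ℤ) ^ W)).biUnion (fun r => (S b D k).filter (fun n => 0 < v n + r ∧
        Even (v n + r) ∧ ¬ Q (v n + r).toNat)) := by
    intro n hn
    rw [mem_filter] at hn
    obtain ⟨hn1, r, hr1, hr2⟩ := hn
    rw [mem_biUnion]
    exact ⟨r, mem_Icc.2 (abs_le.1 hr1), mem_filter.2 ⟨hn1, hr2⟩⟩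
  have h1 : (((S b D k).filter (fun n => ∃ r : ℤ, |r| ≤ (k : ℤ) ^ W ∧ 0 < v n + r ∧ Even (v n + r) ∧
        ¬ Q (v n + r).toNat)).card : ℝ) ≤ ∑ r ∈ Icc (-((k : ℤ) ^ W)) ((k : ℤ) ^ W), (((S b D k).filter (fun n => 0 < v n + r ∧
        Even (v n + r) ∧ ¬ Q (v n + r).toNat)).card : ℝ) := by
    exact_mod_cast (card_le_card hsub).trans card_biUnion_le
  refine h1.trans ((sum_le_sum hone).trans ?_)
  rw [sum_const, Int.card_Icc, nsmul_eq_mul]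
  have h2 : ((((k : ℤ) ^ W + 1 - -((k : ℤ) ^ W)).toNat : ℕ) : ℝ) ≤ (k : ℝ) ^ (W + 2) := by
    have h3 : (((k : ℤ) ^ W + 1 - -((k : ℤ) ^ W)).toNat : ℤ) = 2 * (k : ℤ) ^ W + 1 := by
      have h0 : (0 : ℤ) ≤ (k : ℤ) ^ W := by positivity
      rw [Int.toNat_of_nonneg (by linarith)]
      ring
    have h4 : ((((k : ℤ) ^ W + 1 - -((k : ℤ) ^ W)).toNat : ℕ) : ℝ) = 2 * (k : ℝ) ^ W + 1 := by exact_mod_cast h3
    rw [h4, pow_add]
    have h5 : (1 : ℝ) ≤ (k : ℝ) ^ W := one_le_pow₀ (by linarith)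
    have h6 : (4 : ℝ) ≤ (k : ℝ) ^ 2 := by nlinarith
    have h7 : (k : ℝ) ^ W * 4 ≤ (k : ℝ) ^ W * (k : ℝ) ^ 2 := mul_le_mul_of_nonneg_left h6 (by linarith)
    linarith
  have hZ : (0 : ℝ) ≤ ((S b D k).card : ℝ) := Nat.cast_nonneg _
  calc _ ≤ (k : ℝ) ^ (W + 2) * (((S b D k).card : ℝ) / (k : ℝ) ^ (U + W + 2)) := mul_le_mul_of_nonneg_right h2 (by positivity)
    _ = _ := by
        rw [show U + W + 2 = U + (W + 2) by ring, pow_add (k : ℝ) U (W + 2)]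
        field_simp

end Pool.Agent.J4.H93.PD
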